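import Pool.Agent.V11121.RBW

/-!
# Sparse classes of bounded reduced bandwidth have polynomial (even linear) expansion
-/

set_option autoImplicit false

namespace Pool.Agent.Results.MP_271714_co.PolynomialExpansion

open Pool.Agent.V11121.RBW

/-- Every monotone class of graphs without a subgraph `K_{s,t}` and of reduced bandwidth
at most `k` has polynomial expansion, with a polynomial of degree at most one. -/
theorem result (C : FG → Prop) (_hC : Monotone C) (s t k : ℕ) (_hs : 1 ≤ s) (_ht : 1 ≤ t)
    (hst : ∀ G, C G → ¬ HasBiclique G.G s t) (hk : ∀ G, C G → ReducedBandwidthLE G k) :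
    ∃ p : Polynomial ℝ, p.natDegree ≤ 1 ∧ ∀ G, C G → ∀ (r : ℕ) (H : FG), IsShallowMinor r H G →
      (H.G.edgeSet.ncard : ℝ) ≤ p.eval (r : ℝ) * (Nat.card H.V : ℝ) := by
  obtain ⟨c, hc⟩ := linear_expansion C hst hk
  refine ⟨Polynomial.C (c : ℝ) * Polynomial.X + Polynomial.C (c : ℝ), ?_, ?_⟩
  · exact Polynomial.natDegree_linear_le
  · intro G hG r H hH
    refine (hc G hG r H hH).trans (le_of_eq ?_)
    simp only [Polynomial.eval_add, Polynomial.eval_mul, Polynomial.eval_C, Polynomial.eval_X]
    ring

end Pool.Agent.Results.MP_271714_co.PolynomialExpansion
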